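import Pool.Agent.Lib.MP_f43b6f_lc.Dbl

set_option autoImplicit false

namespace Pool.Agent.Results.MP_f43b6f_lc.DoubleJump

open Pool.Agent.Lib.MP_f43b6f_lc

/-- For `n ≥ 3`, `k ≥ 4` and every `f`, there is a `k`-colouring computable in `f` such that every
infinite set whose sums of at most `n` distinct elements all have the same colour computes,
together with `f`, the set of all `e` such that some pair `(e, t)` is outside the range of `f`. -/
theorem result (n k : ℕ) (hn : 3 ≤ n) (hk : 4 ≤ k) (f : ℕ → ℕ) :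
    ∃ c : ℕ → ℕ, (∀ x, c x < k) ∧ RecursiveIn {(f : ℕ →. ℕ)} (c : ℕ →. ℕ) ∧
      ∀ X : Set ℕ, X.Infinite → (∃ i, ∀ s ∈ FSle n X, c s = i) →
        RecursiveIn {(f : ℕ →. ℕ), (chi X : ℕ →. ℕ)}
          (chi {e | ∃ t, Nat.pair e t ∉ Set.range f} : ℕ →. ℕ) := by
  refine ⟨colour4 f, fun x => ?_, main hn f⟩
  have h1 := colour_two_lt f x
  have h2 := Bool.toNat_le (col2 f x)
  unfold colour4
  omega

end Pool.Agent.Results.MP_f43b6f_lc.DoubleJump
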