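import Pool.Agent.Lib.MP_f43b6f_lc.Main

set_option autoImplicit false

namespace Pool.Agent.Results.MP_f43b6f_lc.FewColours

open Pool.Agent.Lib.MP_f43b6f_lc

/-- For `n, k ≥ 2` with `(n, k) ≠ (2, 2)` and every `f`, there is a `k`-colouring computable in `f`
such that every infinite set whose sums of at most `n` distinct elements all have the same colour
computes, together with `f`, the range of `f`. -/
theorem result (n k : ℕ) (hn : 2 ≤ n) (hk : 2 ≤ k) (h : 3 ≤ n ∨ 3 ≤ k) (f : ℕ → ℕ) :
    ∃ c : ℕ → ℕ, (∀ x, c x < k) ∧ RecursiveIn {(f : ℕ →. ℕ)} (c : ℕ →. ℕ) ∧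
      ∀ X : Set ℕ, X.Infinite → (∃ i, ∀ s ∈ FSle n X, c s = i) →
        RecursiveIn {(f : ℕ →. ℕ), (chi X : ℕ →. ℕ)} (chi (Set.range f) : ℕ →. ℕ) := by
  rcases h with h | h
  · refine ⟨colour 2 two f, fun x => ?_, scheme hn (by norm_num) (by unfold two; fun_prop)
      (fun m r a b c => ?_) fun b m u hu h1 => ⟨h, two_ne b m u hu h1⟩⟩
    · unfold colour col two
      omega
    · unfold two
      rcases Nat.mod_two_eq_zero_or_one m with h1 | h1 <;> rw [h1] <;>
        cases a <;> cases b <;> cases c <;> simp <;> omega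
  · refine ⟨colour 3 three f, fun x => ?_, scheme hn (by norm_num) (by unfold three; fun_prop)
      (fun m r a b c => ?_) fun b m u _ h1 => absurd h1 (three_ne _ m u)⟩
    · unfold colour col three
      refine lt_of_lt_of_le (Nat.mod_lt _ (by omega)) ?_
      have := Bool.toNat_le
      grind
    · unfold three
      generalize m / 3 = q
      rcases (by omega : m % 3 = 0 ∨ m % 3 = 1 ∨ m % 3 = 2) with h1 | h1 | h1 <;> rw [h1] <;>
        cases a <;> cases b <;> simp <;> omega

end Pool.Agent.Results.MP_f43b6f_lc.FewColours
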