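import Pool.Agent.Lib.MP_f43b6f_lc.VBridge

set_option autoImplicit false

namespace Pool.Agent.Results.MP_f43b6f_lc.LevelUpper

open Pool.Agent.Lib.MP_f43b6f_lc

/-- There is one number `a` such that every colouring `c` of the natural numbers with `k` colours
has an infinite set `X`, arithmetical in `c` at level `a * k`, whose sums of at most two distinct
elements all have the same colour. -/
theorem result : ∃ a : ℕ, ∀ (k : ℕ) (c : ℕ → ℕ), (∀ n, c n < k) →
    ∃ X : Set ℕ, X.Infinite ∧ ArithLev c (a * k) X ∧ ∃ i, ∀ s ∈ FSle 2 X, c s = i :=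
  V.solved_lev.imp fun _ h k c hc => (h k c hc).imp fun _ h => ⟨h.2.1, h.1, h.2.2⟩

end Pool.Agent.Results.MP_f43b6f_lc.LevelUpper
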